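import Mathlib

/-!
The planar stabbing lemma: a point `p` whose slope (seen from the leftmost vertex `a` of a triangle
`abc`) has the same dyadic order of magnitude as that of the middle vertex `b`, and that lies to the
left of `b`, yields a point of the triangle which only depends on `p` and on the dyadic order of
magnitude of the vertical distance from `p` to the line `ac`.
-/

namespace Pool.Agent.H99.Sel

/-- signed vertical distance from the line `ac` to the point `p` -/
noncomputable def ht (xa ya xc yc xp yp : ℝ) : ℝ :=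
  yp - ya - (yc - ya) * (xp - xa) / (xc - xa)

/-- the real number `±2^u` or `0` attached to a label -/
noncomputable def shift (l : SignType × ℤ) : ℝ := (l.1 : ℝ) * (2 : ℝ) ^ l.2

/-- class of the point `p` for the base `ac` -/
noncomputable def cls (xa ya xc yc xp yp : ℝ) : SignType × ℤ :=
  (SignType.sign (ht xa ya xc yc xp yp), Int.log 2 (|ht xa ya xc yc xp yp| / (xp - xa)))

/-- label of the point `p` for the base `ac` -/
noncomputable def lbl (xa ya xc yc xp yp : ℝ) : SignType × ℤ :=
  (SignType.sign (ht xa ya xc yc xp yp), Int.log 2 |ht xa ya xc yc xp yp|)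

lemma bary (xa ya xb yb xc yc xp yp l s : ℝ) (h1 : xa < xb) (h2 : xb < xc)
    (hl : 0 ≤ l) (hl1 : l * (xb - xa) ≤ xp - xa) (hl2 : l * (xc - xb) ≤ xc - xp)
    (hs : l * ht xa ya xc yc xb yb = ht xa ya xc yc xp yp - s) :
    ∃ α β γ : ℝ, 0 ≤ α ∧ 0 ≤ β ∧ 0 ≤ γ ∧ α + β + γ = 1 ∧
      α * xa + β * xb + γ * xc = xp ∧ α * ya + β * yb + γ * yc = yp - s := by
  have hac : 0 < xc - xa := by linarith
  refine ⟨((xc - xp) - l * (xc - xb)) / (xc - xa), l, ((xp - xa) - l * (xb - xa)) / (xc - xa),
    div_nonneg (by linarith) hac.le, hl, div_nonneg (by linarith) hac.le, ?_, ?_, ?_⟩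
  · field_simp
    ring
  · field_simp
    ring
  · unfold ht at hs
    field_simp at hs ⊢
    linear_combination hs

lemma stab_core (xa ya xb yb xc yc xp yp : ℝ) (h1 : xa < xb) (h2 : xb < xc)
    (h3 : xa < xp) (h4 : xp ≤ xb)
    (hc : cls xa ya xc yc xp yp = cls xa ya xc yc xb yb) :
    ∃ α β γ : ℝ, 0 ≤ α ∧ 0 ≤ β ∧ 0 ≤ γ ∧ α + β + γ = 1 ∧
      α * xa + β * xb + γ * xc = xp ∧
      α * ya + β * yb + γ * yc = yp - shift (lbl xa ya xc yc xp yp) := by
  unfold cls at hc
  rw [Prod.mk.injEq] at hc
  obtain ⟨hc1, hc2⟩ := hc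
  unfold lbl shift
  simp only
  set P := ht xa ya xc yc xp yp with hP
  set B := ht xa ya xc yc xb yb with hB
  have hpa : 0 < xp - xa := by linarith
  have hba : 0 < xb - xa := by linarith
  by_cases hP0 : P = 0
  · have hB0 : B = 0 := by
      rw [hP0, sign_zero] at hc1
      exact sign_eq_zero_iff.1 hc1.symm
    apply bary xa ya xb yb xc yc xp yp 0 _ h1 h2 le_rfl (by linarith) (by linarith)
    rw [← hP, hP0]
    simp
  · have hB0 : B ≠ 0 := by
      intro h
      rw [h, sign_zero] at hc1
      exact hP0 (sign_eq_zero_iff.1 hc1)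
    have hPabs : 0 < |P| := abs_pos.2 hP0
    have hBabs : 0 < |B| := abs_pos.2 hB0
    set u := Int.log 2 |P| with hu
    have hu1 : (2 : ℝ) ^ u ≤ |P| := by
      have := Int.zpow_log_le_self (b := 2) (by norm_num) hPabs
      simpa using this
    have hu2 : |P| < 2 * (2 : ℝ) ^ u := by
      have := Int.lt_zpow_succ_log_self (b := 2) (by norm_num) |P|
      rw [zpow_add_one₀ (by norm_num)] at this
      push_cast at this
      linarith
    -- comparison of slopes
    have hsl : |P| / (xp - xa) < 2 * (|B| / (xb - xa)) := by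
      have e1 : |P| / (xp - xa) < (2 : ℝ) ^ (Int.log 2 (|P| / (xp - xa)) + 1) := by
        have := Int.lt_zpow_succ_log_self (b := 2) (by norm_num) (|P| / (xp - xa))
        simpa using this
      have e2 : (2 : ℝ) ^ (Int.log 2 (|B| / (xb - xa))) ≤ |B| / (xb - xa) := by
        have := Int.zpow_log_le_self (b := 2) (by norm_num) (div_pos hBabs hba)
        simpa using this
      rw [hc2, zpow_add_one₀ (by norm_num)] at e1
      linarith
    have hsl' : |P| * (xb - xa) < 2 * |B| * (xp - xa) := by
      rw [← mul_div_assoc, div_lt_div_iff₀ hpa hba] at hsl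
      exact hsl
    -- the barycentric coordinate of `b`
    set l : ℝ := (|P| - (2 : ℝ) ^ u) / |B| with hl
    have hl0 : 0 ≤ l := div_nonneg (by linarith) hBabs.le
    have hlB : l * |B| = |P| - (2 : ℝ) ^ u := by
      rw [hl]; field_simp
    have hl1 : l * (xb - xa) ≤ xp - xa := by
      have : l * (xb - xa) * |B| ≤ (xp - xa) * |B| := by
        calc l * (xb - xa) * |B| = (|P| - (2 : ℝ) ^ u) * (xb - xa) := by rw [← hlB]; ring
          _ ≤ (|P| / 2) * (xb - xa) := by
              apply mul_le_mul_of_nonneg_right _ hba.le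
              linarith
          _ ≤ (xp - xa) * |B| := by linarith
      exact le_of_mul_le_mul_right this hBabs
    have hl01 : l ≤ 1 := by
      have : l * (xb - xa) ≤ 1 * (xb - xa) := by linarith
      exact le_of_mul_le_mul_right this hba
    have hl2 : l * (xc - xb) ≤ xc - xp := by
      have : l * (xc - xb) ≤ 1 * (xc - xb) := mul_le_mul_of_nonneg_right hl01 (by linarith)
      linarith
    apply bary xa ya xb yb xc yc xp yp l _ h1 h2 hl0 hl1 hl2
    rw [← hP, ← hB]
    have e1 : (SignType.sign P : ℝ) * |P| = P := by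
      exact sign_mul_abs P
    have e2 : (SignType.sign B : ℝ) * |B| = B := by
      exact sign_mul_abs B
    calc l * B = l * ((SignType.sign B : ℝ) * |B|) := by rw [e2]
      _ = (SignType.sign B : ℝ) * (l * |B|) := by ring
      _ = (SignType.sign P : ℝ) * (|P| - (2 : ℝ) ^ u) := by rw [hlB, hc1]
      _ = (SignType.sign P : ℝ) * |P| - (SignType.sign P : ℝ) * (2 : ℝ) ^ u := by ring
      _ = P - (SignType.sign P : ℝ) * (2 : ℝ) ^ u := by rw [e1]

/-- if `2^{-K} ≤ x ≤ 2^K` or `x = 0` then `Int.log 2 x ∈ [-K, K]` -/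
lemma log_mem (x : ℝ) (K : ℕ) (h : x = 0 ∨ ((2 : ℝ) ^ (-(K : ℤ)) ≤ x ∧ x ≤ (2 : ℝ) ^ (K : ℤ))) :
    Int.log 2 x ∈ Finset.Icc (-(K : ℤ)) (K : ℤ) := by
  rw [Finset.mem_Icc]
  rcases h with h | ⟨h1, h2⟩
  · rw [h]
    simp
  · have hx : 0 < x := lt_of_lt_of_le (by positivity) h1
    constructor
    · have := Int.log_mono_right (b := 2) (r₁ := (2 : ℝ) ^ (-(K : ℤ))) (r₂ := x) (by positivity) h1
      have e := Int.log_zpow (R := ℝ) (b := 2) (by norm_num) (-(K : ℤ))
      push_cast at e
      rw [e] at this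
      exact this
    · have := Int.log_mono_right (b := 2) (r₁ := x) (r₂ := (2 : ℝ) ^ (K : ℤ)) hx h2
      have e := Int.log_zpow (R := ℝ) (b := 2) (by norm_num) (K : ℤ)
      push_cast at e
      rw [e] at this
      exact this

end Pool.Agent.H99.Sel
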