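import Mathlib

/-!
Counting part of the selection lemma with few classes.

`V` is a finite set with an injective coordinate `X`, `E` a finite family of `(k+2)`-subsets of `V`.
For a base `(a, c)` (the two extreme vertices of an edge) the points of `V` strictly between `a` and
`c` are divided into classes `cl a c p`.
-/

namespace Pool.Agent.H99.Sel

open Finset

variable {α : Type*} [DecidableEq α] {Γ Λ : Type*} [DecidableEq Γ] [DecidableEq Λ]

/-- points of the class of `b` with respect to the base `(a, c)` that are to the left of `b`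
(`b` included) -/
noncomputable def left (V : Finset α) (X : α → ℝ) (cl : α → α → α → Γ) (a c b : α) : Finset α := by
  classical
  exact V.filter (fun p => X a < X p ∧ X p ≤ X b ∧ cl a c p = cl a c b)

lemma mem_left {V : Finset α} {X : α → ℝ} {cl : α → α → α → Γ} {a c b p : α} :
    p ∈ left V X cl a c b ↔ p ∈ V ∧ X a < X p ∧ X p ≤ X b ∧ cl a c p = cl a c b := by
  unfold left
  simp

/-- points strictly between `a` and `c` whose position in their class is at most `σ` -/
noncomputable def low (V : Finset α) (X : α → ℝ) (cl : α → α → α → Γ) (σ : ℕ) (a c : α) :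
    Finset α := by
  classical
  exact V.filter (fun b => X a < X b ∧ X b < X c ∧ (left V X cl a c b).card ≤ σ)

lemma mem_low {V : Finset α} {X : α → ℝ} {cl : α → α → α → Γ} {a c b : α} {σ : ℕ} :
    b ∈ low V X cl σ a c ↔ b ∈ V ∧ X a < X b ∧ X b < X c ∧ (left V X cl a c b).card ≤ σ := by
  unfold low
  simp

lemma card_low_le (V : Finset α) (X : α → ℝ) (hX : Set.InjOn X V) (cl : α → α → α → Γ)
    (Cl : Finset Γ) (σ : ℕ) (a c : α)
    (hcl : ∀ p ∈ V, X a < X p → X p < X c → cl a c p ∈ Cl) :
    (low V X cl σ a c).card ≤ Cl.card * σ := by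
  classical
  have key : (low V X cl σ a c).card ≤ (Cl ×ˢ Finset.Icc 1 σ).card := by
    apply Finset.card_le_card_of_injOn (fun b => (cl a c b, (left V X cl a c b).card))
    · intro b hb
      rw [Finset.mem_coe, mem_low] at hb
      obtain ⟨hbV, h1, h2, h3⟩ := hb
      rw [Finset.mem_coe, Finset.mem_product, Finset.mem_Icc]
      refine ⟨hcl b hbV h1 h2, ?_, h3⟩
      apply Finset.card_pos.2
      exact ⟨b, mem_left.2 ⟨hbV, h1, le_rfl, rfl⟩⟩
    · -- injectivity
      have aux : ∀ b ∈ low V X cl σ a c, ∀ b' ∈ low V X cl σ a c, X b < X b' →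
          cl a c b = cl a c b' → (left V X cl a c b).card < (left V X cl a c b').card := by
        intro b hb b' hb' hlt hc
        rw [mem_low] at hb hb'
        apply Finset.card_lt_card
        rw [Finset.ssubset_iff_of_subset]
        · refine ⟨b', mem_left.2 ⟨hb'.1, hb'.2.1, le_rfl, rfl⟩, ?_⟩
          intro h
          rw [mem_left] at h
          exact absurd h.2.2.1 (not_le.2 hlt)
        · intro p hp
          rw [mem_left] at hp ⊢
          exact ⟨hp.1, hp.2.1, hp.2.2.1.trans hlt.le, hp.2.2.2.trans hc⟩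
      intro b hb b' hb' heq
      simp only [Prod.mk.injEq] at heq
      obtain ⟨h1, h2⟩ := heq
      rw [Finset.mem_coe] at hb hb'
      rcases lt_trichotomy (X b) (X b') with h | h | h
      · exact absurd h2 (aux b hb b' hb' h h1).ne
      · exact hX (mem_low.1 hb).1 (mem_low.1 hb').1 h
      · exact absurd h2.symm (aux b' hb' b hb h h1.symm).ne
  rw [Finset.card_product, Nat.card_Icc] at key
  simpa using key

/-- The main counting statement. `lo e`, `hi e` are the extreme vertices of the edge `e`,
`stab q e` says that the stabbing point with label `q` hits the edge `e`. -/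
lemma exists_stab (V : Finset α) (E : Finset (Finset α)) (X : α → ℝ) (hX : Set.InjOn X V)
    (k : ℕ) (lo hi : Finset α → α)
    (hsub : ∀ e ∈ E, e ⊆ V) (hcard : ∀ e ∈ E, e.card = k + 2)
    (hlo : ∀ e ∈ E, lo e ∈ e) (hhi : ∀ e ∈ E, hi e ∈ e)
    (hlohi : ∀ e ∈ E, ∀ x ∈ e, X (lo e) ≤ X x ∧ X x ≤ X (hi e))
    (cl : α → α → α → Γ) (Cl : Finset Γ)
    (hcl : ∀ a ∈ V, ∀ c ∈ V, ∀ p ∈ V, X a < X p → X p < X c → cl a c p ∈ Cl)
    (lab : α → α → α → Λ) (La : Finset Λ)
    (hlab : ∀ a ∈ V, ∀ c ∈ V, ∀ p ∈ V, X a < X p → X p < X c → lab a c p ∈ La)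
    (stab : α × Λ → Finset α → Prop)
    (hstab : ∀ e ∈ E, ∀ b ∈ e, ∀ p ∈ V, X (lo e) < X b → X b < X (hi e) → X (lo e) < X p →
      X p ≤ X b → cl (lo e) (hi e) p = cl (lo e) (hi e) b →
      stab (p, lab (lo e) (hi e) p) e)
    (σ : ℕ) (hσ : 2 * (V.card ^ 2 * (Cl.card * σ) ^ k) ≤ E.card) (hE : E.Nonempty) :
    ∃ q : α × Λ, q.1 ∈ V ∧ q.2 ∈ La ∧
      E.card * (σ + 1) ≤ 2 * (V.card * La.card) * {e : Finset α | e ∈ E ∧ stab q e}.ncard := by
  classical
  set mid : Finset α → Finset α := fun e => (e.erase (lo e)).erase (hi e) with hmid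
  -- the extreme vertices are distinct
  have hne : ∀ e ∈ E, lo e ≠ hi e := by
    intro e he h
    have h1 : ∀ x ∈ e, x = lo e := by
      intro x hx
      have h2 := hlohi e he x hx
      rw [← h] at h2
      exact hX (hsub e he hx) (hsub e he (hlo e he)) (le_antisymm h2.2 h2.1)
    have h2 : e.card ≤ 1 := by
      rw [Finset.card_le_one]
      intro x hx y hy
      rw [h1 x hx, h1 y hy]
    have := hcard e he
    omega
  have hmidcard : ∀ e ∈ E, (mid e).card = k := by
    intro e he
    simp only [hmid]
    rw [Finset.card_erase_of_mem, Finset.card_erase_of_mem (hlo e he), hcard e he]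
    · rfl
    · rw [Finset.mem_erase]
      exact ⟨(hne e he).symm, hhi e he⟩
  have hmidmem : ∀ e ∈ E, ∀ b ∈ mid e, b ∈ e ∧ X (lo e) < X b ∧ X b < X (hi e) := by
    intro e he b hb
    simp only [hmid, Finset.mem_erase] at hb
    obtain ⟨hb1, hb2, hb3⟩ := hb
    refine ⟨hb3, lt_of_le_of_ne (hlohi e he b hb3).1 ?_, lt_of_le_of_ne (hlohi e he b hb3).2 ?_⟩
    · intro h
      exact hb2 (hX (hsub e he (hlo e he)) (hsub e he hb3) h).symm
    · intro h
      exact hb1 (hX (hsub e he hb3) (hsub e he (hhi e he)) h)
  have hrec : ∀ e ∈ E, e = insert (lo e) (insert (hi e) (mid e)) := by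
    intro e he
    ext x
    simp only [hmid, Finset.mem_insert, Finset.mem_erase]
    constructor
    · intro hx
      tauto
    · rintro (h | h | h)
      · rw [h]; exact hlo e he
      · rw [h]; exact hhi e he
      · exact h.2.2
  -- bad edges
  set bad : Finset (Finset α) := E.filter (fun e => mid e ⊆ low V X cl σ (lo e) (hi e)) with hbad
  have hbadcard : bad.card ≤ V.card ^ 2 * (Cl.card * σ) ^ k := by
    have h1 : bad.card ≤ (((V ×ˢ V).sigma
        (fun ac => (low V X cl σ ac.1 ac.2).powersetCard k)) :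
          Finset (Σ _ : α × α, Finset α)).card := by
      apply Finset.card_le_card_of_injOn
        (fun e => (⟨(lo e, hi e), mid e⟩ : Σ _ : α × α, Finset α))
      · intro e he
        rw [Finset.mem_coe, hbad, Finset.mem_filter] at he
        rw [Finset.mem_coe, Finset.mem_sigma, Finset.mem_product, Finset.mem_powersetCard]
        exact ⟨⟨hsub e he.1 (hlo e he.1), hsub e he.1 (hhi e he.1)⟩, he.2, hmidcard e he.1⟩
      · intro e he e' he' heq
        rw [Finset.mem_coe, hbad, Finset.mem_filter] at he he'
        simp only [Sigma.mk.injEq, Prod.mk.injEq] at heq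
        obtain ⟨⟨h1, h2⟩, h3⟩ := heq
        have h4 := eq_of_heq h3
        rw [hrec e he.1, hrec e' he'.1, h1, h2, h4]
    rw [Finset.card_sigma] at h1
    calc bad.card ≤ _ := h1
      _ ≤ ∑ _ac ∈ V ×ˢ V, (Cl.card * σ) ^ k := by
          apply Finset.sum_le_sum
          rintro ⟨a, c⟩ hac
          rw [Finset.mem_product] at hac
          rw [Finset.card_powersetCard]
          calc ((low V X cl σ a c).card).choose k ≤ (low V X cl σ a c).card ^ k :=
                Nat.choose_le_pow _ _
            _ ≤ (Cl.card * σ) ^ k := by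
                apply Nat.pow_le_pow_left
                exact card_low_le V X hX cl Cl σ a c (hcl a hac.1 c hac.2)
      _ = V.card ^ 2 * (Cl.card * σ) ^ k := by
          rw [Finset.sum_const, Finset.card_product, smul_eq_mul]
          ring
  set good : Finset (Finset α) := E \ bad with hgood
  have hgoodcard : E.card ≤ 2 * good.card := by
    have h1 : bad ⊆ E := Finset.filter_subset _ _
    have h2 := Finset.card_sdiff_add_card_eq_card h1
    rw [← hgood] at h2
    omega
  -- every good edge is hit by many labels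
  set Q : Finset (α × Λ) := V ×ˢ La with hQ
  have hgoodhit : ∀ e ∈ good, σ + 1 ≤ (Q.filter (fun q => stab q e)).card := by
    intro e he
    rw [hgood, Finset.mem_sdiff] at he
    obtain ⟨heE, hen⟩ := he
    have h1 : ¬ (mid e ⊆ low V X cl σ (lo e) (hi e)) := by
      intro h
      exact hen (by rw [hbad, Finset.mem_filter]; exact ⟨heE, h⟩)
    rw [Finset.not_subset] at h1
    obtain ⟨b, hb, hbl⟩ := h1
    obtain ⟨hbe, hb1, hb2⟩ := hmidmem e heE b hb
    have h2 : σ + 1 ≤ (left V X cl (lo e) (hi e) b).card := by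
      by_contra h
      apply hbl
      rw [mem_low]
      exact ⟨hsub e heE hbe, hb1, hb2, by omega⟩
    refine h2.trans ?_
    apply Finset.card_le_card_of_injOn (fun p => (p, lab (lo e) (hi e) p))
    · intro p hp
      rw [Finset.mem_coe, mem_left] at hp
      obtain ⟨hpV, hp1, hp2, hp3⟩ := hp
      rw [Finset.mem_coe, Finset.mem_filter, hQ, Finset.mem_product]
      refine ⟨⟨hpV, hlab _ (hsub e heE (hlo e heE)) _ (hsub e heE (hhi e heE)) p hpV hp1
        (lt_of_le_of_lt hp2 hb2)⟩, ?_⟩
      exact hstab e heE b hbe p hpV hb1 hb2 hp1 hp2 hp3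
    · intro p _ p' _ h
      simp only [Prod.mk.injEq] at h
      exact h.1
  -- double counting
  have hdc : ∑ q ∈ Q, (E.filter (fun e => stab q e)).card =
      ∑ e ∈ E, (Q.filter (fun q => stab q e)).card := by
    simp only [Finset.card_filter]
    exact Finset.sum_comm
  have hlower : good.card * (σ + 1) ≤ ∑ q ∈ Q, (E.filter (fun e => stab q e)).card := by
    rw [hdc]
    calc good.card * (σ + 1) = ∑ _e ∈ good, (σ + 1) := by
          rw [Finset.sum_const, smul_eq_mul]
      _ ≤ ∑ e ∈ good, (Q.filter (fun q => stab q e)).card := Finset.sum_le_sum hgoodhit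
      _ ≤ ∑ e ∈ E, (Q.filter (fun q => stab q e)).card := by
          apply Finset.sum_le_sum_of_subset
          rw [hgood]
          exact Finset.sdiff_subset
  have hQne : Q.Nonempty := by
    by_contra h
    rw [Finset.not_nonempty_iff_eq_empty] at h
    rw [h, Finset.sum_empty] at hlower
    have : 1 ≤ E.card := Finset.card_pos.2 hE
    have h3 : good.card = 0 := by
      by_contra h4
      have : 0 < good.card * (σ + 1) := Nat.mul_pos (Nat.pos_of_ne_zero h4) (by omega)
      omega
    omega
  obtain ⟨q, hq, hmax⟩ := Finset.exists_max_image Q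
    (fun q => (E.filter (fun e => stab q e)).card) hQne
  have hup : ∑ q ∈ Q, (E.filter (fun e => stab q e)).card ≤
      Q.card * (E.filter (fun e => stab q e)).card := by
    calc _ ≤ ∑ _q' ∈ Q, (E.filter (fun e => stab q e)).card := Finset.sum_le_sum hmax
      _ = _ := by rw [Finset.sum_const, smul_eq_mul]
  rw [hQ, Finset.mem_product] at hq
  refine ⟨q, hq.1, hq.2, ?_⟩
  have hn : {e : Finset α | e ∈ E ∧ stab q e}.ncard = (E.filter (fun e => stab q e)).card := by
    rw [← Set.ncard_coe_finset]
    congr 1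
    ext e
    simp
  rw [hn]
  have hQc : Q.card = V.card * La.card := by rw [hQ, Finset.card_product]
  rw [hQc] at hup
  calc E.card * (σ + 1) ≤ (2 * good.card) * (σ + 1) := Nat.mul_le_mul_right _ hgoodcard
    _ = 2 * (good.card * (σ + 1)) := by ring
    _ ≤ 2 * (V.card * La.card * (E.filter (fun e => stab q e)).card) := by
        apply Nat.mul_le_mul_left
        exact hlower.trans hup
    _ = _ := by ring

end Pool.Agent.H99.Sel
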