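import Mathlib
import Pool.Agent.H68.GeomHyp
import Pool.Agent.H99.Sel.Count
import Pool.Agent.H99.Sel.Core

/-!
Selection lemma for codimension two flats and hypergraphs whose vertices are integer points of a
cube `[0,N]^d`.
-/

namespace Pool.Agent.H99.Sel

open Pool.Agent.H68 Module Finset

/-- the first coordinate of the projection to the plane -/
noncomputable def fx (d N : ℕ) : Pt d →ₗ[ℝ] ℝ where
  toFun x := ∑ i : Fin d, x i * ((N : ℝ) + 1) ^ (i : ℕ)
  map_add' x y := by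
    simp [add_mul, Finset.sum_add_distrib]
  map_smul' a x := by
    simp [Finset.mul_sum, mul_assoc]

/-- the second coordinate of the projection to the plane -/
noncomputable def fy (d : ℕ) (i0 : Fin d) : Pt d →ₗ[ℝ] ℝ where
  toFun x := x i0
  map_add' x y := by simp
  map_smul' a x := by simp

lemma fx_apply (d N : ℕ) (x : Pt d) :
    fx d N x = ∑ i : Fin d, x i * ((N : ℝ) + 1) ^ (i : ℕ) := rfl

lemma fy_apply (d : ℕ) (i0 : Fin d) (x : Pt d) : fy d i0 x = x i0 := rfl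

/-- the fibres of a surjective linear map to the plane are flats of codimension two -/
lemma exists_flat (d : ℕ) (f g : Pt d →ₗ[ℝ] ℝ)
    (h : ∀ s t : ℝ, ∃ x, f x = s ∧ g x = t) (s t : ℝ) :
    ∃ L : AffineSubspace ℝ (Pt d), IsFlat (d - 2) L ∧ ∀ x, x ∈ L ↔ f x = s ∧ g x = t := by
  set F : Pt d →ₗ[ℝ] ℝ × ℝ := f.prod g with hF
  have hsurj : Function.Surjective F := by
    rintro ⟨s, t⟩
    obtain ⟨x, h1, h2⟩ := h s t
    exact ⟨x, by rw [hF, LinearMap.prod_apply]; simp [h1, h2]⟩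
  have hrank : finrank ℝ (LinearMap.ker F) = d - 2 := by
    have h1 := LinearMap.finrank_range_add_finrank_ker F
    rw [LinearMap.range_eq_top.2 hsurj, finrank_top, finrank_euclideanSpace_fin] at h1
    have h2 : finrank ℝ (ℝ × ℝ) = 2 := by simp
    omega
  obtain ⟨x0, h1, h2⟩ := h s t
  refine ⟨AffineSubspace.mk' x0 (LinearMap.ker F), ⟨⟨x0, AffineSubspace.self_mem_mk' _ _⟩, ?_⟩, ?_⟩
  · rw [AffineSubspace.direction_mk', hrank]
  · intro x
    rw [AffineSubspace.mem_mk', LinearMap.mem_ker, hF, LinearMap.prod_apply]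
    simp only [vsub_eq_sub]
    change (f (x - x0), g (x - x0)) = 0 ↔ _
    rw [Prod.mk_eq_zero, map_sub, map_sub, h1, h2, sub_eq_zero, sub_eq_zero]

lemma fxfy_surj (d N : ℕ) (hd : 2 ≤ d) (s t : ℝ) :
    ∃ x, fx d N x = s ∧ fy d ⟨0, by omega⟩ x = t := by
  have hN : (N : ℝ) + 1 ≠ 0 := by positivity
  set i0 : Fin d := ⟨0, by omega⟩ with hi0
  set i1 : Fin d := ⟨1, by omega⟩ with hi1
  have h01 : i0 ≠ i1 := by
    rw [hi0, hi1]
    simp [Fin.ext_iff]
  have hx : ∀ i : Fin d, fx d N (EuclideanSpace.single i 1) = ((N : ℝ) + 1) ^ (i : ℕ) := by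
    intro i
    rw [fx_apply]
    rw [Finset.sum_eq_single i]
    · simp
    · intro j _ hj
      simp [hj]
    · simp
  refine ⟨t • EuclideanSpace.single i0 (1 : ℝ) +
    ((s - t) / ((N : ℝ) + 1)) • EuclideanSpace.single i1 (1 : ℝ), ?_, ?_⟩
  · rw [map_add, map_smul, map_smul, hx, hx]
    simp only [hi0, hi1, pow_zero, pow_one, smul_eq_mul]
    field_simp
    ring
  · rw [fy_apply]
    simp [h01]

/-- integer points of the cube are mapped injectively to integers in `[0, (N+1)^d)` -/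
lemma fx_nat (d N : ℕ) (x : Pt d) (hx : ∀ i, ∃ z : ℕ, z ≤ N ∧ x i = z) :
    ∃ w : Fin ((N + 1) ^ d), fx d N x = (w : ℕ) ∧
      ∀ i, x i = ((finFunctionFinEquiv.symm w i : Fin (N + 1)) : ℕ) := by
  choose z hz1 hz2 using hx
  set f : Fin d → Fin (N + 1) := fun i => ⟨z i, by have := hz1 i; omega⟩ with hf
  refine ⟨finFunctionFinEquiv f, ?_, ?_⟩
  · rw [fx_apply, finFunctionFinEquiv_apply]
    push_cast
    apply Finset.sum_congr rfl
    intro i _
    rw [hz2 i]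
  · intro i
    rw [Equiv.symm_apply_apply, hz2 i]

lemma fx_inj (d N : ℕ) (V : Finset (Pt d)) (hV : ∀ x ∈ V, ∀ i, ∃ z : ℕ, z ≤ N ∧ x i = z) :
    Set.InjOn (fx d N) V := by
  intro x hx y hy h
  obtain ⟨w, h1, h2⟩ := fx_nat d N x (hV x hx)
  obtain ⟨w', h1', h2'⟩ := fx_nat d N y (hV y hy)
  have hww : w = w' := by
    rw [h1, h1'] at h
    exact Fin.ext (by exact_mod_cast h)
  subst hww
  ext i
  rw [h2 i, h2' i]

/-- bounds for the signed height over integer points -/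
lemma ht_bounds (M : ℕ) (xa ya xc yc xp yp : ℤ) (N : ℕ)
    (hya : 0 ≤ ya ∧ ya ≤ N) (hyc : 0 ≤ yc ∧ yc ≤ N) (hyp : 0 ≤ yp ∧ yp ≤ N)
    (hxa : 0 ≤ xa) (hxc : xc ≤ M) (h1 : xa < xp) (h2 : xp < xc)
    (h : ht xa ya xc yc xp yp ≠ 0) :
    1 / (M : ℝ) ≤ |ht xa ya xc yc xp yp| ∧ |ht xa ya xc yc xp yp| ≤ N ∧
    1 / ((M : ℝ) * M) ≤ |ht xa ya xc yc xp yp| / ((xp : ℝ) - xa) ∧
    |ht xa ya xc yc xp yp| / ((xp : ℝ) - xa) ≤ N := by
  set D : ℤ := (xc - xa) * (yp - ya) - (yc - ya) * (xp - xa) with hD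
  have hac : (0 : ℝ) < (xc : ℝ) - xa := by
    have : xa < xc := by omega
    have : (xa : ℝ) < xc := by exact_mod_cast this
    linarith
  have hpa : (1 : ℝ) ≤ (xp : ℝ) - xa := by
    have : xa + 1 ≤ xp := by omega
    have : (xa : ℝ) + 1 ≤ xp := by exact_mod_cast this
    linarith
  have hpc : (1 : ℝ) ≤ (xc : ℝ) - xp := by
    have : xp + 1 ≤ xc := by omega
    have : (xp : ℝ) + 1 ≤ xc := by exact_mod_cast this
    linarith
  have hacM : (xc : ℝ) - xa ≤ M := by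
    have : xc - xa ≤ M := by omega
    exact_mod_cast this
  have hM : (0 : ℝ) < M := lt_of_lt_of_le hac hacM
  have hH : ht xa ya xc yc xp yp = (D : ℝ) / ((xc : ℝ) - xa) := by
    unfold ht
    rw [hD]
    push_cast
    field_simp
  have hD0 : D ≠ 0 := by
    intro h0
    rw [hH, h0] at h
    simp at h
  have hD1 : (1 : ℝ) ≤ |(D : ℝ)| := by
    have : 1 ≤ |D| := Int.one_le_abs hD0
    exact_mod_cast this
  have hlow : 1 / (M : ℝ) ≤ |ht xa ya xc yc xp yp| := by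
    rw [hH, abs_div, abs_of_pos hac]
    rw [div_le_div_iff₀ hM hac]
    nlinarith
  have hup : |ht xa ya xc yc xp yp| ≤ N := by
    rw [hH, abs_div, abs_of_pos hac, div_le_iff₀ hac, hD]
    have r1 : (0 : ℝ) ≤ ya := by exact_mod_cast hya.1
    have r2 : (ya : ℝ) ≤ N := by exact_mod_cast hya.2
    have r3 : (0 : ℝ) ≤ yc := by exact_mod_cast hyc.1
    have r4 : (yc : ℝ) ≤ N := by exact_mod_cast hyc.2
    have r5 : (0 : ℝ) ≤ yp := by exact_mod_cast hyp.1
    have r6 : (yp : ℝ) ≤ N := by exact_mod_cast hyp.2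
    push_cast
    rw [abs_le]
    constructor
    · nlinarith [mul_nonneg (by linarith : (0 : ℝ) ≤ xp - xa) (by linarith : (0 : ℝ) ≤ N - yc),
        mul_nonneg (by linarith : (0 : ℝ) ≤ xc - xp) (by linarith : (0 : ℝ) ≤ N - ya),
        mul_nonneg hac.le r5]
    · nlinarith [mul_nonneg (by linarith : (0 : ℝ) ≤ xp - xa) r3,
        mul_nonneg (by linarith : (0 : ℝ) ≤ xc - xp) r1,
        mul_nonneg hac.le (by linarith : (0 : ℝ) ≤ N - yp)]
  refine ⟨hlow, hup, ?_, ?_⟩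
  · rw [div_le_div_iff₀ (by positivity) (by linarith), one_mul]
    rw [div_le_iff₀ hM] at hlow
    have : (xp : ℝ) - xa ≤ M := by linarith
    nlinarith
  · rw [div_le_iff₀ (by linarith)]
    nlinarith [abs_nonneg (ht xa ya xc yc xp yp), (Nat.cast_nonneg N : (0 : ℝ) ≤ N)]

end Pool.Agent.H99.Sel
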