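import Mathlib
import Pool.Agent.H99.Sel.Proj

/-!
Selection lemma for flats of codimension two and hypergraphs on integer points of `[0,N]^d`.
-/

namespace Pool.Agent.H99.Sel

open Pool.Agent.H68 Module Finset

/-- the number of dyadic scales -/
def scales (d N : ℕ) : ℕ := 2 * d * (Nat.log 2 (N + 1) + 1)

lemma pow_scales (d N : ℕ) : ((N : ℝ) + 1) ^ d * ((N : ℝ) + 1) ^ d ≤ (2 : ℝ) ^ (scales d N : ℤ) := by
  have h1 : N + 1 < 2 ^ (Nat.log 2 (N + 1) + 1) := Nat.lt_pow_succ_log_self (by norm_num) _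
  have h2 : (N : ℝ) + 1 ≤ (2 : ℝ) ^ (Nat.log 2 (N + 1) + 1) := by exact_mod_cast h1.le
  have h3 : ((N : ℝ) + 1) ^ (2 * d) ≤ ((2 : ℝ) ^ (Nat.log 2 (N + 1) + 1)) ^ (2 * d) := by
    apply pow_le_pow_left₀ (by positivity) h2
  calc ((N : ℝ) + 1) ^ d * ((N : ℝ) + 1) ^ d = ((N : ℝ) + 1) ^ (2 * d) := by ring
    _ ≤ ((2 : ℝ) ^ (Nat.log 2 (N + 1) + 1)) ^ (2 * d) := h3
    _ = (2 : ℝ) ^ (scales d N : ℤ) := by
        rw [← pow_mul, zpow_natCast]
        congr 1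
        unfold scales
        ring

lemma scales_le (d N : ℕ) (hd : 2 ≤ d) (hN : 2 ≤ N) :
    3 * (2 * (scales d N : ℝ) + 1) ≤ 60 * d * Real.log N := by
  have hNR : (2 : ℝ) ≤ N := by exact_mod_cast hN
  have hdR : (2 : ℝ) ≤ d := by exact_mod_cast hd
  have hlog2 : (0.69 : ℝ) < Real.log 2 := by
    have := Real.log_two_gt_d9
    linarith
  have hlogN : Real.log 2 ≤ Real.log N := Real.log_le_log (by norm_num) hNR
  have h1 : ((Nat.log 2 (N + 1) : ℕ) : ℝ) * Real.log 2 ≤ 2 * Real.log N := by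
    have h2 : 2 ^ (Nat.log 2 (N + 1)) ≤ N + 1 := Nat.pow_log_le_self 2 (by omega)
    have h3 : (2 : ℝ) ^ (Nat.log 2 (N + 1)) ≤ (N : ℝ) ^ 2 := by
      have h4 : (2 : ℝ) ^ (Nat.log 2 (N + 1)) ≤ (N : ℝ) + 1 := by exact_mod_cast h2
      nlinarith
    have h5 := Real.log_le_log (by positivity) h3
    rw [Real.log_pow, Real.log_pow] at h5
    exact_mod_cast h5
  set l : ℝ := ((Nat.log 2 (N + 1) : ℕ) : ℝ) with hl
  have hl0 : 0 ≤ l := by rw [hl]; positivity
  have h6 : l ≤ 3 * Real.log N := by nlinarith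
  have h7 : (1 : ℝ) ≤ 1.5 * Real.log N := by linarith
  have h8 : (scales d N : ℝ) = 2 * d * (l + 1) := by
    unfold scales
    rw [hl]
    push_cast
    ring
  rw [h8]
  nlinarith [mul_le_mul_of_nonneg_left (by linarith : l + 1 ≤ 4.5 * Real.log N)
    (by linarith : (0 : ℝ) ≤ d)]

lemma numeric (m n κ τ t k : ℕ) (hk : 1 ≤ k) (h1 : m < 2 * (n ^ 2 * (κ * τ) ^ k))
    (h2 : m * τ ≤ 2 * (n * κ) * t) :
    (m : ℝ) ^ ((((k + 2 : ℕ) : ℝ) - 1) / (((k + 2 : ℕ) : ℝ) - 2)) ≤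
      4 * (κ : ℝ) ^ 2 * (n : ℝ) ^ (((k + 2 : ℕ) : ℝ) / (((k + 2 : ℕ) : ℝ) - 2)) * t := by
  have hkR : (0 : ℝ) < k := by exact_mod_cast hk
  have hk0 : k ≠ 0 := by omega
  set a : ℝ := (k : ℝ)⁻¹ with ha
  have ha0 : 0 < a := inv_pos.2 hkR
  have ha1 : a ≤ 1 := by
    rw [ha]
    apply inv_le_one_of_one_le₀
    exact_mod_cast hk
  have e0 : (((k + 2 : ℕ) : ℝ) - 2) = k := by push_cast; ring
  have hk1 : (k : ℝ) ≠ 0 := hkR.ne'
  have e1 : ((((k + 2 : ℕ) : ℝ) - 1) / (((k + 2 : ℕ) : ℝ) - 2)) = 1 + a := by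
    rw [e0, ha, div_eq_iff hk1, add_mul, inv_mul_cancel₀ hk1]
    push_cast
    ring
  have e2 : (((k + 2 : ℕ) : ℝ) / (((k + 2 : ℕ) : ℝ) - 2)) = 1 + (a + a) := by
    rw [e0, ha, div_eq_iff hk1, add_mul, add_mul, inv_mul_cancel₀ hk1]
    push_cast
    ring
  rw [e1, e2]
  rcases Nat.eq_zero_or_pos n with hn | hn
  · subst hn
    simp at h1
  rcases Nat.eq_zero_or_pos m with hm | hm
  · subst hm
    rw [Nat.cast_zero, Real.zero_rpow (by positivity)]
    positivity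
  have hmR : (0 : ℝ) < m := by exact_mod_cast hm
  have hnR : (0 : ℝ) < n := by exact_mod_cast hn
  have h3 : (m : ℝ) ^ a ≤ 2 * ((n : ℝ) ^ a) ^ 2 * (κ * τ) := by
    have h4 : (m : ℝ) ≤ 2 * ((n : ℝ) ^ 2 * ((κ : ℝ) * τ) ^ k) := by exact_mod_cast h1.le
    calc (m : ℝ) ^ a ≤ (2 * ((n : ℝ) ^ 2 * ((κ : ℝ) * τ) ^ k)) ^ a :=
          Real.rpow_le_rpow hmR.le h4 ha0.le
      _ = (2 : ℝ) ^ a * (((n : ℝ) ^ 2) ^ a * (((κ : ℝ) * τ) ^ k) ^ a) := by
          rw [Real.mul_rpow (by norm_num) (by positivity),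
            Real.mul_rpow (by positivity) (by positivity)]
      _ = (2 : ℝ) ^ a * (((n : ℝ) ^ a) ^ 2 * ((κ : ℝ) * τ)) := by
          rw [ha, Real.pow_rpow_inv_natCast (by positivity) hk0, ← ha]
          congr 2
          rw [← Real.rpow_natCast, ← Real.rpow_natCast, ← Real.rpow_mul hnR.le,
            ← Real.rpow_mul hnR.le, mul_comm]
      _ ≤ 2 * (((n : ℝ) ^ a) ^ 2 * ((κ : ℝ) * τ)) := by
          apply mul_le_mul_of_nonneg_right _ (by positivity)
          calc (2 : ℝ) ^ a ≤ (2 : ℝ) ^ (1 : ℝ) := Real.rpow_le_rpow_of_exponent_le (by norm_num) ha1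
            _ = 2 := by rw [Real.rpow_one]
      _ = _ := by ring
  have h5 : (m : ℝ) * τ ≤ 2 * (n * κ) * t := by exact_mod_cast h2
  rw [Real.rpow_add hmR, Real.rpow_add hnR, Real.rpow_add hnR, Real.rpow_one, Real.rpow_one]
  calc (m : ℝ) * (m : ℝ) ^ a ≤ m * (2 * ((n : ℝ) ^ a) ^ 2 * (κ * τ)) :=
        mul_le_mul_of_nonneg_left h3 hmR.le
    _ = 2 * ((n : ℝ) ^ a) ^ 2 * κ * (m * τ) := by ring
    _ ≤ 2 * ((n : ℝ) ^ a) ^ 2 * κ * (2 * (n * κ) * t) := by
        apply mul_le_mul_of_nonneg_left h5 (by positivity)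
    _ = 4 * (κ : ℝ) ^ 2 * (n * ((n : ℝ) ^ a * (n : ℝ) ^ a)) * t := by ring

theorem codimTwo (d r N : ℕ) (hd : 2 ≤ d) (hr : 3 ≤ r) (hN : 2 ≤ N) (G : GeomHyp d r)
    (hG : ∀ x ∈ G.V, ∀ i, ∃ z : ℕ, z ≤ N ∧ x i = z) :
    ∃ L : AffineSubspace ℝ (Pt d), IsFlat (d - 2) L ∧
      (G.E.card : ℝ) ^ (((r : ℝ) - 1) / ((r : ℝ) - 2)) ≤
        14400 * (d : ℝ) ^ 2 * (Real.log N) ^ 2 * (G.V.card : ℝ) ^ ((r : ℝ) / ((r : ℝ) - 2)) *
          numMet G L := by
  classical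
  obtain ⟨k, rfl⟩ : ∃ k, r = k + 2 := ⟨r - 2, by omega⟩
  have hk : 1 ≤ k := by omega
  set X := fx d N with hX
  set Y := fy d ⟨0, by omega⟩ with hY
  rcases Finset.eq_empty_or_nonempty G.E with hE | hE
  · obtain ⟨L, hL, -⟩ := exists_flat d X Y (fxfy_surj d N hd) 0 0
    refine ⟨L, hL, ?_⟩
    rw [hE, Finset.card_empty, Nat.cast_zero, Real.zero_rpow]
    · positivity
    · have : (0 : ℝ) < k := by exact_mod_cast hk
      push_cast
      apply ne_of_gt
      apply div_pos <;> linarith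
  -- extreme vertices
  have hne : ∀ e ∈ G.E, e.Nonempty := by
    intro e he
    rw [← Finset.card_pos, G.card_eq e he]
    omega
  have hex : ∀ e : Finset (Pt d), ∃ a c : Pt d, e ∈ G.E →
      (a ∈ e ∧ c ∈ e ∧ ∀ x ∈ e, X a ≤ X x ∧ X x ≤ X c) := by
    intro e
    by_cases he : e ∈ G.E
    · obtain ⟨a, ha, ha'⟩ := Finset.exists_min_image e X (hne e he)
      obtain ⟨c, hc, hc'⟩ := Finset.exists_max_image e X (hne e he)
      exact ⟨a, c, fun _ => ⟨ha, hc, fun x hx => ⟨ha' x hx, hc' x hx⟩⟩⟩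
    · exact ⟨0, 0, fun h => absurd h he⟩
  choose lo hi hlohi using hex
  set K := scales d N with hK
  set Cl : Finset (SignType × ℤ) := (Finset.univ : Finset SignType) ×ˢ
    Finset.Icc (-(K : ℤ)) (K : ℤ) with hCl
  have hClcard : Cl.card = 3 * (2 * K + 1) := by
    rw [hCl, Finset.card_product, Int.card_Icc]
    have h1 : (Finset.univ : Finset SignType).card = 3 := rfl
    rw [h1]
    congr 1
    omega
  -- the bounds on heights
  have hint : ∀ p ∈ G.V, ∃ (x y : ℤ), X p = x ∧ Y p = y ∧ 0 ≤ x ∧ x ≤ ((N + 1) ^ d : ℕ) ∧ 0 ≤ y ∧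
      y ≤ N := by
    intro p hp
    obtain ⟨w, h1, -⟩ := fx_nat d N p (hG p hp)
    obtain ⟨z, hz1, hz2⟩ := hG p hp ⟨0, by omega⟩
    refine ⟨((w : ℕ) : ℤ), (z : ℤ), ?_, ?_, by positivity, ?_, by positivity, by exact_mod_cast hz1⟩
    · rw [hX, h1]; push_cast; rfl
    · rw [hY, fy_apply, hz2]; push_cast; rfl
    · exact_mod_cast w.2.le
  have hMpos : (1 : ℝ) ≤ ((N : ℝ) + 1) ^ d := by
    apply one_le_pow₀
    have : (0 : ℝ) ≤ N := by positivity
    linarith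
  have hKup : (N : ℝ) ≤ (2 : ℝ) ^ (K : ℤ) := by
    calc (N : ℝ) ≤ ((N : ℝ) + 1) ^ d := by
          have h1 : (N : ℝ) + 1 ≤ ((N : ℝ) + 1) ^ d := by
            apply le_self_pow₀
            · have : (0 : ℝ) ≤ N := by positivity
              linarith
            · omega
          linarith
      _ ≤ ((N : ℝ) + 1) ^ d * ((N : ℝ) + 1) ^ d := by nlinarith
      _ ≤ _ := pow_scales d N
  have hKlow : (2 : ℝ) ^ (-(K : ℤ)) ≤
      1 / ((((N + 1) ^ d : ℕ) : ℝ) * (((N + 1) ^ d : ℕ) : ℝ)) := by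
    rw [zpow_neg, ← one_div]
    apply one_div_le_one_div_of_le
    · positivity
    · push_cast
      exact pow_scales d N
  have hKlow' : (2 : ℝ) ^ (-(K : ℤ)) ≤ 1 / (((N + 1) ^ d : ℕ) : ℝ) := by
    refine hKlow.trans ?_
    apply one_div_le_one_div_of_le
    · positivity
    · push_cast
      nlinarith
  have hmem : ∀ a ∈ G.V, ∀ c ∈ G.V, ∀ p ∈ G.V, X a < X p → X p < X c →
      cls (X a) (Y a) (X c) (Y c) (X p) (Y p) ∈ Cl ∧
      lbl (X a) (Y a) (X c) (Y c) (X p) (Y p) ∈ Cl := by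
    intro a ha c hc p hp h1 h2
    obtain ⟨xa, ya, ea, ea', a1, a2, a3, a4⟩ := hint a ha
    obtain ⟨xc, yc, ec, ec', c1, c2, c3, c4⟩ := hint c hc
    obtain ⟨xp, yp, ep, ep', p1, p2, p3, p4⟩ := hint p hp
    rw [ea, ep] at h1
    rw [ep, ec] at h2
    rw [ea, ea', ec, ec', ep, ep']
    have h1' : xa < xp := by exact_mod_cast h1
    have h2' : xp < xc := by exact_mod_cast h2
    have hb := ht_bounds ((N + 1) ^ d) xa ya xc yc xp yp N ⟨a3, a4⟩ ⟨c3, c4⟩ ⟨p3, p4⟩ a1 c2 h1' h2'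
    unfold cls lbl
    rw [hCl, Finset.mem_product, Finset.mem_product]
    simp only [Finset.mem_univ, true_and]
    by_cases h0 : ht xa ya xc yc xp yp = 0
    · constructor
      · apply log_mem
        left
        rw [h0]; simp
      · apply log_mem
        left
        rw [h0]; simp
    · obtain ⟨b1, b2, b3, b4⟩ := hb h0
      constructor
      · apply log_mem
        right
        exact ⟨hKlow.trans b3, b4.trans hKup⟩
      · apply log_mem
        right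
        exact ⟨hKlow'.trans b1, b2.trans hKup⟩
  -- the stabbing relation
  set stab : Pt d × (SignType × ℤ) → Finset (Pt d) → Prop := fun q e =>
    ∃ a ∈ e, ∃ b ∈ e, ∃ c ∈ e, ∃ α β γ : ℝ, 0 ≤ α ∧ 0 ≤ β ∧ 0 ≤ γ ∧ α + β + γ = 1 ∧
      α * X a + β * X b + γ * X c = X q.1 ∧
      α * Y a + β * Y b + γ * Y c = Y q.1 - shift q.2 with hstab
  -- the threshold
  have hn1 : 1 ≤ G.V.card := by
    obtain ⟨e, he⟩ := hE
    obtain ⟨x, hx⟩ := hne e he
    exact Finset.card_pos.2 ⟨x, G.subV e he hx⟩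
  have hκ1 : 1 ≤ Cl.card := by rw [hClcard]; omega
  have hτex : ∃ τ : ℕ, G.E.card < 2 * (G.V.card ^ 2 * (Cl.card * τ) ^ k) := by
    refine ⟨G.E.card + 1, ?_⟩
    have h1 : G.E.card + 1 ≤ Cl.card * (G.E.card + 1) := Nat.le_mul_of_pos_left _ hκ1
    have h2 : Cl.card * (G.E.card + 1) ≤ (Cl.card * (G.E.card + 1)) ^ k :=
      Nat.le_self_pow (by omega) _
    have h3 : (Cl.card * (G.E.card + 1)) ^ k ≤
        G.V.card ^ 2 * (Cl.card * (G.E.card + 1)) ^ k :=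
      Nat.le_mul_of_pos_left _ (by positivity)
    omega
  set τ := Nat.find hτex with hτ
  have hτspec : G.E.card < 2 * (G.V.card ^ 2 * (Cl.card * τ) ^ k) := Nat.find_spec hτex
  have hτpos : 1 ≤ τ := by
    by_contra h
    have h0 : τ = 0 := by omega
    rw [h0, Nat.mul_zero, Nat.zero_pow hk] at hτspec
    omega
  have hσ : 2 * (G.V.card ^ 2 * (Cl.card * (τ - 1)) ^ k) ≤ G.E.card := by
    have := Nat.find_min hτex (m := τ - 1) (by omega)
    omega
  obtain ⟨q, hq1, hq2, hq3⟩ := exists_stab G.V G.E X (fx_inj d N G.V hG) k lo hi G.subV G.card_eq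
    (fun e he => (hlohi e he).1) (fun e he => (hlohi e he).2.1) (fun e he => (hlohi e he).2.2)
    (fun a c p => cls (X a) (Y a) (X c) (Y c) (X p) (Y p)) Cl
    (fun a ha c hc p hp h1 h2 => (hmem a ha c hc p hp h1 h2).1)
    (fun a c p => lbl (X a) (Y a) (X c) (Y c) (X p) (Y p)) Cl
    (fun a ha c hc p hp h1 h2 => (hmem a ha c hc p hp h1 h2).2)
    stab
    (by
      intro e he b hb p hp h1 h2 h3 h4 hc
      obtain ⟨α, β, γ, hα, hβ, hγ, hsum, hx, hy⟩ := stab_core (X (lo e)) (Y (lo e)) (X b) (Y b)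
        (X (hi e)) (Y (hi e)) (X p) (Y p) h1 h2 h3 h4 hc
      exact ⟨lo e, (hlohi e he).1, b, hb, hi e, (hlohi e he).2.1, α, β, γ, hα, hβ, hγ, hsum, hx, hy⟩)
    (τ - 1) hσ hE
  obtain ⟨L, hL, hmemL⟩ := exists_flat d X Y (fxfy_surj d N hd) (X q.1) (Y q.1 - shift q.2)
  refine ⟨L, hL, ?_⟩
  have hcount : {e : Finset (Pt d) | e ∈ G.E ∧ stab q e}.ncard ≤ numMet G L := by
    unfold numMet
    apply Set.ncard_le_ncard
    · rintro e ⟨he, a, ha, b, hb, c, hc, α, β, γ, hα, hβ, hγ, hsum, hx, hy⟩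
      refine ⟨he, α • a + β • b + γ • c, ?_, ?_⟩
      · rw [SetLike.mem_coe, hmemL]
        constructor
        · simp only [map_add, map_smul, smul_eq_mul]
          exact hx
        · simp only [map_add, map_smul, smul_eq_mul]
          exact hy
      · have hconv := convex_convexHull ℝ (e : Set (Pt d))
        have ha' := subset_convexHull ℝ (e : Set (Pt d)) ha
        have hb' := subset_convexHull ℝ (e : Set (Pt d)) hb
        have hc' := subset_convexHull ℝ (e : Set (Pt d)) hc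
        have := hconv.sum_mem (t := (Finset.univ : Finset (Fin 3))) (w := ![α, β, γ])
          (z := ![a, b, c])
          (by intro i _; fin_cases i <;> simp [hα, hβ, hγ])
          (by simp [Fin.sum_univ_three, hsum])
          (by intro i _; fin_cases i <;> simp [ha', hb', hc'])
        simpa [Fin.sum_univ_three] using this
    · exact (Finset.finite_toSet G.E).subset (fun e he => he.1)
  have hfin : G.E.card * τ ≤ 2 * (G.V.card * Cl.card) * numMet G L := by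
    have h1 : τ - 1 + 1 = τ := by omega
    rw [h1] at hq3
    exact hq3.trans (Nat.mul_le_mul_left _ hcount)
  have hnum := numeric G.E.card G.V.card Cl.card τ (numMet G L) k hk hτspec hfin
  refine hnum.trans ?_
  have hsc : (Cl.card : ℝ) ≤ 60 * d * Real.log N := by
    rw [hClcard]
    push_cast
    exact scales_le d N hd hN
  have hsq : 4 * (Cl.card : ℝ) ^ 2 ≤ 14400 * (d : ℝ) ^ 2 * (Real.log N) ^ 2 := by
    have h0 : (0 : ℝ) ≤ Cl.card := by positivity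
    have h1 : (Cl.card : ℝ) ^ 2 ≤ (60 * d * Real.log N) ^ 2 := pow_le_pow_left₀ h0 hsc 2
    calc 4 * (Cl.card : ℝ) ^ 2 ≤ 4 * (60 * d * Real.log N) ^ 2 := by linarith
      _ = _ := by ring
  apply mul_le_mul_of_nonneg_right _ (by positivity)
  apply mul_le_mul_of_nonneg_right hsq
  apply Real.rpow_nonneg
  positivity

end Pool.Agent.H99.Sel
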